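import Mathlib
import Pool.Agent.Q141.BW.Final

/-!
# The kissing configurations of the Barnes-Wall lattices are jammed
-/

set_option autoImplicit false

namespace Pool.Agent.Results.MP_389516_gt.BarnesWallJammed

/-! ### Spherical codes -/

section codes

variable {E : Type*} [NormedAddCommGroup E] [InnerProductSpace ℝ E]

/-- A spherical code: a finite set of unit vectors. -/
def IsSphericalCode (C : Set E) : Prop := C.Finite ∧ ∀ x ∈ C, ‖x‖ = 1

/-- The minimal angle: the smallest angle between two distinct points of the code. -/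
noncomputable def minAngle (C : Set E) : ℝ :=
  sInf {θ | ∃ x ∈ C, ∃ y ∈ C, x ≠ y ∧ θ = InnerProductGeometry.angle x y}

/-- A motion of the code `C`: continuous paths on the unit sphere, one for each point of `C` and
starting there, with `⟨x_i(t), x_j(t)⟩ ≤ cos θ(C)` for all `i ≠ j` and all `t ∈ [0,1]`. -/
structure IsMotion (C : Set E) (γ : C → unitInterval → E) : Prop where
  continuous : ∀ i, Continuous (γ i)
  start : ∀ i, γ i 0 = i
  unit : ∀ i t, ‖γ i t‖ = 1
  inner_le : ∀ i j, i ≠ j → ∀ t, inner ℝ (γ i t) (γ j t) ≤ Real.cos (minAngle C)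

/-- The motion is trivial: it is induced by orthogonal maps `g(t)`. -/
def IsTrivial (C : Set E) (γ : C → unitInterval → E) : Prop :=
  ∃ g : unitInterval → (E ≃ₗᵢ[ℝ] E), ∀ i t, γ i t = g t i

/-- The code is jammed: every motion is trivial. -/
def IsJammed (C : Set E) : Prop := ∀ γ : C → unitInterval → E, IsMotion C γ → IsTrivial C γ

/-- The kissing configuration of a lattice: its nonzero vectors of minimal norm, rescaled to unit
length. -/
def kissing (L : Set E) : Set E :=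
  {u | ∃ x ∈ L, x ≠ 0 ∧ (∀ y ∈ L, y ≠ 0 → ‖x‖ ≤ ‖y‖) ∧ u = ‖x‖⁻¹ • x}

end codes

/-! ### Barnes-Wall lattices -/

/-- The matrix `M = (1, 1; 0, 1 + i)`. -/
noncomputable def M : Matrix (Fin 2) (Fin 2) ℂ := !![1, 1; 0, 1 + Complex.I]

/-- The Kronecker power `M^{⊗ m}`, with rows and columns indexed by the strings of `m` bits. -/
noncomputable def kroneckerPower (m : ℕ) : Matrix (Fin m → Fin 2) (Fin m → Fin 2) ℂ :=
  Matrix.of fun r s => ∏ j, M (r j) (s j)

/-- `ℝ^{2^k}` for `k ≥ 1`: Euclidean space with coordinates indexed by a string of `k - 1` bits and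
one more bit. -/
abbrev R (k : ℕ) := EuclideanSpace ℝ ((Fin (k - 1) → Fin 2) × Fin 2)

/-- The identification `ℂ^{2^{k-1}} ≅ ℝ^{2^k}` by real and imaginary parts. -/
noncomputable def toReal (k : ℕ) (z : (Fin (k - 1) → Fin 2) → ℂ) : R k :=
  WithLp.toLp 2 fun p => ![(z p.1).re, (z p.1).im] p.2

/-- The Barnes-Wall lattice `BW_{2^k}`, `k ≥ 1`: the combinations, with coefficients in the Gaussian
integers, of the rows of `M^{⊗ (k-1)}`, regarded as vectors of `ℝ^{2^k}`. -/
def barnesWall (k : ℕ) : Set (R k) :=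
  {x | ∃ c : (Fin (k - 1) → Fin 2) → GaussianInt,
    x = toReal k (∑ r, (c r : ℂ) • (kroneckerPower (k - 1)).row r)}

open Pool.Agent.Q141.BW Pool.Agent.H976R3.Kiss

theorem barnesWall_eq (m : ℕ) : barnesWall (m + 1) = (toR m) '' L m := by
  ext x
  constructor
  · rintro ⟨c, rfl⟩
    refine ⟨_, ⟨c, fun s => ?_⟩, rfl⟩
    rw [Finset.sum_apply]
    rfl
  · rintro ⟨y, ⟨c, hc⟩, rfl⟩
    refine ⟨c, ?_⟩
    have : y = ∑ r, (c r : ℂ) • (kroneckerPower m).row r := by
      funext s
      rw [hc s, Finset.sum_apply]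
      rfl
    rw [this]
    rfl

theorem norm_toR (m : ℕ) (x : V m) : ‖toR m x‖ = √(ip x x) := by
  rw [norm_eq_sqrt_real_inner, inner_toR]

theorem kissing_eq (m : ℕ) : kissing (barnesWall (m + 1)) = Set.range (Pool.Agent.Q141.BW.fam m) := by
  rw [barnesWall_eq]
  obtain ⟨x₀, hx₀⟩ := X_nonempty m
  have key : ∀ x : V m, x ∈ X m → ‖toR m x‖ = √(2 ^ m) := by
    intro x hx
    rw [norm_toR, hx.2]
  ext u
  constructor
  · rintro ⟨_, ⟨x, hx, rfl⟩, hx0, hmin, rfl⟩
    have hx0' : x ≠ 0 := by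
      rintro rfl
      exact hx0 (map_zero _)
    have h1 := min_norm m x hx hx0'
    have h2 := hmin _ ⟨x₀, hx₀.1, rfl⟩ (by
      intro h
      exact X_ne_zero hx₀ ((toR m).map_eq_zero_iff.mp h))
    rw [norm_toR, norm_toR, hx₀.2] at h2
    have h3 : ip x x ≤ 2 ^ m := by
      have h4 := (Real.sqrt_le_sqrt_iff (by positivity)).mp h2
      exact h4
    have hX : x ∈ X m := ⟨hx, le_antisymm h3 h1⟩
    refine ⟨⟨x, hX⟩, ?_⟩
    show (√(2 ^ m))⁻¹ • toR m x = ‖toR m x‖⁻¹ • toR m x
    rw [key x hX]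
  · rintro ⟨⟨x, hX⟩, rfl⟩
    refine ⟨toR m x, ⟨x, hX.1, rfl⟩, ?_, ?_, ?_⟩
    · intro h
      exact X_ne_zero hX ((toR m).map_eq_zero_iff.mp h)
    · rintro _ ⟨y, hy, rfl⟩ hy0
      have hy0' : y ≠ 0 := by
        rintro rfl
        exact hy0 (map_zero _)
      rw [key x hX, norm_toR]
      exact Real.sqrt_le_sqrt (min_norm m y hy hy0')
    · show (√(2 ^ m))⁻¹ • toR m x = _
      rw [key x hX]

/-- The minimal angle of a family of unit vectors whose largest inner product is `c`. -/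
theorem cos_minAngle {E : Type*} [NormedAddCommGroup E] [InnerProductSpace ℝ E] {C : Set E} {c : ℝ}
    (hn : ∀ x ∈ C, ‖x‖ = 1) (hc : -1 ≤ c) (hc' : c ≤ 1)
    (hle : ∀ x ∈ C, ∀ y ∈ C, x ≠ y → inner ℝ x y ≤ c)
    (hex : ∃ x ∈ C, ∃ y ∈ C, x ≠ y ∧ inner ℝ x y = c) : Real.cos (minAngle C) = c := by
  have hang : ∀ x ∈ C, ∀ y ∈ C, InnerProductGeometry.angle x y = Real.arccos (inner ℝ x y) := by
    intro x hx y hy
    unfold InnerProductGeometry.angle
    rw [hn x hx, hn y hy, mul_one, div_one]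
  have h1 : minAngle C = Real.arccos c := by
    obtain ⟨x, hx, y, hy, hne, hxy⟩ := hex
    apply le_antisymm
    · refine csInf_le ⟨0, ?_⟩ ⟨x, hx, y, hy, hne, ?_⟩
      · rintro _ ⟨a, _, b, _, _, rfl⟩
        exact InnerProductGeometry.angle_nonneg a b
      · rw [hang x hx y hy, hxy]
    · refine le_csInf ⟨_, x, hx, y, hy, hne, rfl⟩ ?_
      rintro _ ⟨a, ha, b, hb, hab, rfl⟩
      rw [hang a ha b hb]
      exact Real.arccos_le_arccos (hle a ha b hb hab)
  rw [h1, Real.cos_arccos hc hc']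

/-- **The kissing configurations of all Barnes-Wall lattices are jammed.** -/
theorem result : ∀ k : ℕ, 1 ≤ k →
    IsSphericalCode (kissing (barnesWall k)) ∧ IsJammed (kissing (barnesWall k)) := by
  intro k hk
  obtain ⟨m, rfl⟩ : ∃ m, k = m + 1 := ⟨k - 1, by omega⟩
  rw [kissing_eq]
  have hcode : ∀ u ∈ Set.range (Pool.Agent.Q141.BW.fam m), ‖u‖ = 1 := by
    rintro _ ⟨x, rfl⟩
    exact norm_fam x
  refine ⟨⟨Set.finite_range _, hcode⟩, fun γ hγ => ?_⟩
  obtain ⟨c, hc1, hc2⟩ : ∃ c : ℝ, Real.cos (minAngle (Set.range (Pool.Agent.Q141.BW.fam m))) = c ∧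
      InfJammed (Pool.Agent.Q141.BW.fam m) c := by
    have hpow : (0 : ℝ) < 2 ^ m := by positivity
    rcases Nat.eq_zero_or_pos m with rfl | hm
    · refine ⟨0, cos_minAngle hcode (by norm_num) (by norm_num) ?_ ?_, infJammed_zero⟩
      · rintro _ ⟨x, rfl⟩ _ ⟨y, rfl⟩ hne
        rw [inner_fam, pow_zero, div_one]
        have hne' : y.1 ≠ x.1 := fun h => hne (congrArg _ (Subtype.ext h).symm)
        rcases X0_cases x.2 y.2 with h | h | h | h
        · exact absurd h hne'
        · rw [h, ip_I]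
        · rw [h, ip_neg_right, X0_norm x.2]; norm_num
        · rw [h, ip_neg_right, ip_I, neg_zero]
      · obtain ⟨x, hx⟩ := X_nonempty 0
        have hI : ip x (Complex.I • x) = 0 := ip_I x
        refine ⟨_, ⟨⟨x, hx⟩, rfl⟩, _, ⟨⟨_, X_I hx⟩, rfl⟩, ?_, ?_⟩
        · intro h
          have h1 := congrArg Subtype.val (fam_inj h)
          simp only at h1
          rw [← h1] at hI
          rw [X0_norm hx] at hI
          exact one_ne_zero hI
        · rw [inner_fam, hI, zero_div]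
    · refine ⟨1 / 2, cos_minAngle hcode (by norm_num) (by norm_num) ?_ ?_, infJammed_pos hm⟩
      · rintro _ ⟨x, rfl⟩ _ ⟨y, rfl⟩ hne
        rw [inner_fam, div_le_iff₀ hpow]
        have hne' : x.1 - y.1 ≠ 0 := fun h => hne (congrArg _ (Subtype.ext (sub_eq_zero.mp h)))
        have h1 := min_norm m _ (L_sub x.2.1 y.2.1) hne'
        rw [ip_sub_left, ip_sub_right, ip_sub_right, x.2.2, y.2.2, ip_comm y.1 x.1] at h1
        linarith
      · obtain ⟨j, rfl⟩ : ∃ j, m = j + 1 := ⟨m - 1, by omega⟩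
        obtain ⟨x, hx⟩ := X_nonempty j
        have h1 := X_pair hx hx (Cong.refl x)
        have h2 := X_φl hx
        have hin : ip (pair x x) (pair (φ • x) 0) = 2 ^ j := by
          rw [ip_pair, ip_zero_right, ip_φ_self, hx.2, add_zero]
        have hj : (0 : ℝ) < 2 ^ j := by positivity
        refine ⟨_, ⟨⟨_, h1⟩, rfl⟩, _, ⟨⟨_, h2⟩, rfl⟩, ?_, ?_⟩
        · intro h
          have h3 := congrArg Subtype.val (fam_inj h)
          simp only at h3
          rw [← h3, h1.2, pow_succ] at hin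
          linarith
        · rw [inner_fam, hin, pow_succ]
          field_simp
  have hmem : ∀ x : X m, Pool.Agent.Q141.BW.fam m x ∈ Set.range (Pool.Agent.Q141.BW.fam m) :=
    fun x => ⟨x, rfl⟩
  have h := fun t => jammed_of_infJammed (Pool.Agent.Q141.BW.fam m) c norm_fam hc2
    (fun x => γ ⟨_, hmem x⟩) (fun x => hγ.continuous _) (fun x => hγ.start _)
    (fun x t => hγ.unit _ t) (fun x y hxy t => by
      have h1 := hγ.inner_le ⟨_, hmem x⟩ ⟨_, hmem y⟩ (fun h => hxy (fam_inj (congrArg Subtype.val h))) t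
      rwa [hc1] at h1) t
  choose g hg using h
  refine ⟨g, ?_⟩
  rintro ⟨_, x, rfl⟩ t
  exact hg t x

end Pool.Agent.Results.MP_389516_gt.BarnesWallJammed
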